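import Mathlib
import Pool.Agent.Helper56_WN.Corollaries

/-!
# Families of extensions with incompatible values that accumulate on a set of positive measure

Abstract setting: a preorder `A` of conditions (`s ≤ t` means that `t` extends `s`), and for every
`n : ℕ` and `t : A` a finite partial function `val n t : ℕ → Option Bool`.
-/

set_option autoImplicit false

namespace Pool.Agent.Helper19TD

open Pool.Agent.Helper56WN MeasureTheory Set Filter
open scoped Topology ENNReal

/-- two partial functions differ at some place where both are defined -/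
def Inc (p q : ℕ → Option Bool) : Prop := ∃ j b, p j = some b ∧ q j = some (!b)

theorem Inc.symm {p q : ℕ → Option Bool} (h : Inc p q) : Inc q p := by
  obtain ⟨j, b, h1, h2⟩ := h
  exact ⟨j, !b, h2, by simpa using h1⟩

theorem Inc.ne_of_agree {p q : ℕ → Option Bool} (h : Inc p q) (x : ℕ → Bool)
    (hp : ∀ k b, p k = some b → x k = b) (hq : ∀ k b, q k = some b → x k = b) : False := by
  obtain ⟨j, b, h1, h2⟩ := h
  have h3 := hp j b h1
  rw [hq j _ h2] at h3
  simp at h3

variable {A : Type*} [Preorder A]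

/-- monotone assignment of finite partial functions -/
structure Sys (val : ℕ → A → ℕ → Option Bool) : Prop where
  mono : ∀ n {s t}, s ≤ t → ∀ k b, val n s k = some b → val n t k = some b
  fin : ∀ n t, ∃ J, ∀ k ≥ J, val n t k = none

/-- the values below `s` are total functions -/
def Tot (val : ℕ → A → ℕ → Option Bool) (n : ℕ) (s : A) : Prop :=
  ∀ t ≥ s, ∀ m, ∃ t' ≥ t, val n t' m ≠ none

/-- the closed set of all limits of values below `s` -/
def KK (val : ℕ → A → ℕ → Option Bool) (n : ℕ) (s : A) : Set (ℕ → Bool) :=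
  {x | ∀ m, ∃ t ≥ s, ∀ k < m, val n t k = some (x k)}

/-- positive type -/
def Pos (val : ℕ → A → ℕ → Option Bool) (n : ℕ) (s : A) : Prop :=
  Tot val n s ∧ ∀ t ≥ s, coin (KK val n t) ≠ 0

variable {val : ℕ → A → ℕ → Option Bool}

theorem KK_anti {n : ℕ} {s t : A} (h : s ≤ t) : KK val n t ⊆ KK val n s :=
  fun _ hx m => let ⟨t', h1, h2⟩ := hx m; ⟨t', h.trans h1, h2⟩

theorem Tot.up {n : ℕ} {s t : A} (h : s ≤ t) (hs : Tot val n s) : Tot val n t :=
  fun t' ht' => hs t' (h.trans ht')

theorem Pos.up {n : ℕ} {s t : A} (h : s ≤ t) (hs : Pos val n s) : Pos val n t :=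
  ⟨hs.1.up h, fun t' ht' => hs.2 t' (h.trans ht')⟩

theorem Sys.ne_none (hv : Sys val) {n : ℕ} {s t : A} (h : s ≤ t) {k : ℕ}
    (hk : val n s k ≠ none) : val n t k ≠ none := by
  obtain ⟨b, hb⟩ := Option.ne_none_iff_exists'.1 hk
  rw [hv.mono n h k b hb]
  exact Option.some_ne_none b

theorem Sys.inc (hv : Sys val) {n : ℕ} {s t s' t' : A} (h : s ≤ s') (h' : t ≤ t')
    (hi : Inc (val n s) (val n t)) : Inc (val n s') (val n t') := by
  obtain ⟨j, b, h1, h2⟩ := hi
  exact ⟨j, b, hv.mono n h j b h1, hv.mono n h' j _ h2⟩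

/-- extend so that finitely many values are defined below `m` -/
theorem Sys.exists_def (hv : Sys val) (N : Finset ℕ) (m : ℕ) {s : A}
    (h : ∀ n ∈ N, Tot val n s) : ∃ t ≥ s, ∀ n ∈ N, ∀ k < m, val n t k ≠ none := by
  classical
  induction N using Finset.induction_on with
  | empty => exact ⟨s, le_rfl, by simp⟩
  | insert a N _ ih =>
    obtain ⟨t, h1, h2⟩ := ih fun n hn => h n (Finset.mem_insert_of_mem hn)
    have key : ∀ m, ∃ t' ≥ t, ∀ k < m, val a t' k ≠ none := by
      intro m
      induction m with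
      | zero => exact ⟨t, le_rfl, by simp⟩
      | succ m ihm =>
        obtain ⟨t', h3, h4⟩ := ihm
        obtain ⟨t'', h5, h6⟩ := h a (Finset.mem_insert_self a N) t' (h1.trans h3) m
        refine ⟨t'', h3.trans h5, fun k hk => ?_⟩
        rcases Nat.lt_succ_iff_lt_or_eq.1 hk with hk | rfl
        · exact hv.ne_none h5 (h4 k hk)
        · exact h6
    obtain ⟨t', h3, h4⟩ := key m
    refine ⟨t', h1.trans h3, fun n hn k hk => ?_⟩
    rcases Finset.mem_insert.1 hn with rfl | hn
    · exact h4 k hk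
    · exact hv.ne_none h3 (h2 n hn k hk)

/-- a set of positive measure has two points -/
theorem exists_ne_of_coin {S : Set (ℕ → Bool)} (h : coin S ≠ 0) : ∃ x ∈ S, ∃ y ∈ S, x ≠ y := by
  by_contra hcon
  push Not at hcon
  apply h
  rcases S.eq_empty_or_nonempty with rfl | ⟨x, hx⟩
  · exact measure_empty
  · refine measure_mono_null (t := insert x ∅) (fun y hy => ?_) (coin_insert measure_empty)
    left
    exact hcon y hy x hx

theorem Pos.two {n : ℕ} {s : A} (h : Pos val n s) :
    ∃ t ≥ s, ∃ t' ≥ s, Inc (val n t) (val n t') := by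
  obtain ⟨x, hx, y, hy, hxy⟩ := exists_ne_of_coin (h.2 s le_rfl)
  obtain ⟨j, hj⟩ := Function.ne_iff.1 hxy
  obtain ⟨t, h1, h2⟩ := hx (j + 1)
  obtain ⟨t', h3, h4⟩ := hy (j + 1)
  refine ⟨t, h1, t', h3, j, x j, h2 j (by omega), ?_⟩
  rw [h4 j (by omega)]
  congr 1
  cases hx' : x j <;> cases hy' : y j <;> simp_all

/-- two extensions that are incompatible in every coordinate -/
theorem Sys.split (hv : Sys val) (N : Finset ℕ) {s : A} (h : ∀ n ∈ N, Pos val n s) :
    ∃ t ≥ s, ∃ t' ≥ s, ∀ n ∈ N, Inc (val n t) (val n t') := by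
  classical
  induction N using Finset.induction_on with
  | empty => exact ⟨s, le_rfl, s, le_rfl, by simp⟩
  | insert a N _ ih =>
    obtain ⟨u, h1, v, h2, h3⟩ := ih fun n hn => h n (Finset.mem_insert_of_mem hn)
    have ha := h a (Finset.mem_insert_self a N)
    obtain ⟨w, h4, w', h5, j, b, h6, h7⟩ := (ha.up h1).two
    obtain ⟨v', h8, h9⟩ := ha.1 v h2 j
    obtain ⟨c, hc⟩ := Option.ne_none_iff_exists'.1 h9
    by_cases hcb : c = b
    · subst hcb
      refine ⟨w', h1.trans h5, v', h2.trans h8, fun n hn => ?_⟩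
      rcases Finset.mem_insert.1 hn with rfl | hn
      · exact ⟨j, !c, h7, by rw [hc, Bool.not_not]⟩
      · exact hv.inc h5 h8 (h3 n hn)
    · refine ⟨w, h1.trans h4, v', h2.trans h8, fun n hn => ?_⟩
      rcases Finset.mem_insert.1 hn with rfl | hn
      · refine ⟨j, b, h6, ?_⟩
        rw [hc]
        congr 1
        cases b <;> cases c <;> simp_all
      · exact hv.inc h4 h8 (h3 n hn)

/-- infinitely many extensions that are pairwise incompatible in every coordinate -/
theorem Sys.seq_split (hv : Sys val) (N : Finset ℕ) {s : A} (h : ∀ n ∈ N, Pos val n s) :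
    ∃ u : ℕ → A, (∀ i, s ≤ u i) ∧ ∀ i j, i < j → ∀ n ∈ N, Inc (val n (u i)) (val n (u j)) := by
  have step : ∀ r : {r : A // s ≤ r}, ∃ p : {r : A // s ≤ r} × {r : A // s ≤ r},
      r.1 ≤ p.1.1 ∧ r.1 ≤ p.2.1 ∧ ∀ n ∈ N, Inc (val n p.1.1) (val n p.2.1) := by
    rintro ⟨r, hr⟩
    obtain ⟨t, h1, t', h2, h3⟩ := hv.split N fun n hn => (h n hn).up hr
    exact ⟨(⟨t, hr.trans h1⟩, ⟨t', hr.trans h2⟩), h1, h2, h3⟩
  choose F hF1 hF2 hF3 using step
  let r : ℕ → {r : A // s ≤ r} := fun n => Nat.rec ⟨s, le_rfl⟩ (fun _ r => (F r).2) n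
  have hr : ∀ n, r (n + 1) = (F (r n)).2 := fun n => rfl
  have hmono : ∀ i j, i ≤ j → (r i).1 ≤ (r j).1 := by
    intro i j hij
    induction hij with
    | refl => exact le_rfl
    | step _ ih => exact ih.trans (hF2 _)
  refine ⟨fun i => (F (r i)).1.1, fun i => (F (r i)).1.2, fun i j hij n hn => ?_⟩
  refine hv.inc le_rfl ?_ (hF3 (r i) n hn)
  rw [← hr]
  exact (hmono (i + 1) j hij).trans (hF1 _)

section R

variable (val) (N : Finset ℕ) (n₀ : ℕ) (s : A)

/-- incompatible with all elements of `W` in every coordinate -/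
def Off (W : List A) (t : A) : Prop := ∀ w ∈ W, ∀ n ∈ N, Inc (val n t) (val n w)

/-- the set of all `x` all whose initial segments are values of conditions off `W` -/
def GG (W : List A) : Set (ℕ → Bool) :=
  {x | ∀ m, ∃ t ≥ s, (∀ k < m, val n₀ t k = some (x k)) ∧ Off val N W t}

theorem isClosed_restr (m : ℕ) (S : Set (Fin m → Bool)) :
    IsClosed {x : ℕ → Bool | (fun k : Fin m => x k) ∈ S} := by
  have h1 : Continuous fun (x : ℕ → Bool) (k : Fin m) => x k := by fun_prop
  exact (isClosed_discrete S).preimage h1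

theorem isClosed_GG (W : List A) : IsClosed (GG val N n₀ s W) := by
  have h1 : GG val N n₀ s W = ⋂ m, {x : ℕ → Bool | (fun k : Fin m => x k) ∈
      {g : Fin m → Bool | ∃ t ≥ s, (∀ k, ∀ hk : k < m, val n₀ t k = some (g ⟨k, hk⟩)) ∧
        Off val N W t}} := by
    ext x
    simp only [GG, mem_ofPred_eq, mem_iInter]
  rw [h1]
  exact isClosed_iInter fun m => isClosed_restr m _

variable {N n₀ s}

theorem GG_nil : GG val N n₀ s [] = KK val n₀ s := by
  ext x
  simp [GG, KK, Off]

theorem GG_anti (w : A) (W : List A) : GG val N n₀ s (w :: W) ⊆ GG val N n₀ s W := by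
  intro x hx m
  obtain ⟨t, h1, h2, h3⟩ := hx m
  exact ⟨t, h1, h2, fun w' hw' => h3 w' (List.mem_cons_of_mem _ hw')⟩

variable {val}

theorem Off.up (hv : Sys val) {W : List A} {t t' : A} (h : t ≤ t') (ht : Off val N W t) :
    Off val N W t' := fun w hw n hn => hv.inc h le_rfl (ht w hw n hn)

/-- a point is newly blocked by at most `N.card` elements of a pairwise incompatible family -/
theorem finite_blocked (hv : Sys val) (hN : ∀ n ∈ N, Pos val n s) {W : List A} {u : ℕ → A}
    (hu : ∀ i j, i < j → ∀ n ∈ N, Inc (val n (u i)) (val n (u j))) {x : ℕ → Bool}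
    (hx : x ∈ GG val N n₀ s W) : {i | x ∉ GG val N n₀ s (u i :: W)}.Finite := by
  classical
  by_contra hinf
  obtain ⟨I, hI, hcard⟩ := Set.Infinite.exists_subset_card_eq hinf (N.card + 1)
  have hI' : ∀ i : ℕ, ∃ m, i ∈ I → ¬ ∃ t ≥ s, (∀ k < m, val n₀ t k = some (x k)) ∧
      Off val N (u i :: W) t := by
    intro i
    by_cases hi : i ∈ I
    · have h1 := hI hi
      simp only [GG, mem_ofPred_eq, not_forall] at h1
      obtain ⟨m, hm⟩ := h1
      exact ⟨m, fun _ => hm⟩
    · exact ⟨0, fun h => absurd h hi⟩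
  choose mm hmm using hI'
  -- a bound for the places of incompatibility
  have hJ : ∀ n i j : ℕ, ∃ J, n ∈ N → i < j → ∃ l < J, ∃ b, val n (u i) l = some b ∧
      val n (u j) l = some (!b) := by
    intro n i j
    by_cases h : n ∈ N ∧ i < j
    · obtain ⟨l, b, h1, h2⟩ := hu i j h.2 n h.1
      exact ⟨l + 1, fun _ _ => ⟨l, by omega, b, h1, h2⟩⟩
    · exact ⟨0, fun h1 h2 => absurd ⟨h1, h2⟩ h⟩
  choose JJ hJJ using hJ
  let J := N.sup fun n => I.sup fun i => I.sup fun j => JJ n i j
  have hJle : ∀ n ∈ N, ∀ i ∈ I, ∀ j ∈ I, JJ n i j ≤ J := fun n hn i hi j hj =>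
    (Finset.le_sup (f := fun j => JJ n i j) hj).trans
      ((Finset.le_sup (f := fun i => I.sup fun j => JJ n i j) hi).trans
        (Finset.le_sup (f := fun n => I.sup fun i => I.sup fun j => JJ n i j) hn))
  obtain ⟨t, h1, h2, h3⟩ := hx (I.sup mm)
  obtain ⟨t', h4, h5⟩ := hv.exists_def N J (s := t) fun n hn => (hN n hn).1.up h1
  have h6 : ∀ i ∈ I, ∃ n ∈ N, ¬ Inc (val n t') (val n (u i)) := by
    intro i hi
    by_contra hcon
    push Not at hcon
    refine hmm i hi ⟨t', h1.trans h4, fun k hk => ?_, ?_⟩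
    · exact hv.mono _ h4 k _ (h2 k (hk.trans_le (Finset.le_sup hi)))
    · intro w hw
      rcases List.mem_cons.1 hw with rfl | hw
      · exact hcon
      · exact h3.up hv h4 w hw
  have h7 : ∀ i : ℕ, ∃ n, i ∈ I → n ∈ N ∧ ¬ Inc (val n t') (val n (u i)) := by
    intro i
    by_cases hi : i ∈ I
    · obtain ⟨n, hn, hn'⟩ := h6 i hi
      exact ⟨n, fun _ => ⟨hn, hn'⟩⟩
    · exact ⟨0, fun h => absurd h hi⟩
  choose f hf using h7
  obtain ⟨i, hi, j, hj, hij, hfij⟩ := Finset.exists_ne_map_eq_of_card_lt_of_maps_to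
    (s := I) (t := N) (f := f) (by omega) fun i hi => (hf i hi).1
  -- wlog i < j
  have key : ∀ i j, i ∈ I → j ∈ I → i < j → f i = f j → False := by
    intro i j hi hj hij hfij
    obtain ⟨l, hl, b, h8, h9⟩ := hJJ (f i) i j (hf i hi).1 hij
    have h10 := h5 (f i) (hf i hi).1 l (hl.trans_le (hJle _ (hf i hi).1 i hi j hj))
    obtain ⟨c, hc⟩ := Option.ne_none_iff_exists'.1 h10
    by_cases hcb : c = b
    · subst hcb
      refine (hf j hj).2 ?_
      rw [← hfij]
      exact ⟨l, c, hc, h9⟩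
    · refine (hf i hi).2 ⟨l, c, hc, ?_⟩
      rw [h8]
      congr 1
      cases b <;> cases c <;> simp_all
  rcases Nat.lt_or_gt_of_ne hij with h | h
  · exact key i j hi hj h hfij
  · exact key j i hj hi h hfij.symm

theorem exists_small (hv : Sys val) (hN : ∀ n ∈ N, Pos val n s) {W : List A} {u : ℕ → A}
    (hu : ∀ i j, i < j → ∀ n ∈ N, Inc (val n (u i)) (val n (u j))) {c : ℝ≥0∞}
    (hc : c < coin (GG val N n₀ s W)) : ∃ i, c < coin (GG val N n₀ s (u i :: W)) := by
  let B : ℕ → Set (ℕ → Bool) := fun i => GG val N n₀ s W \ GG val N n₀ s (u i :: W)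
  have hB : ∀ i, MeasurableSet (B i) := fun i =>
    (isClosed_GG val N n₀ s W).measurableSet.diff (isClosed_GG val N n₀ s _).measurableSet
  let S : ℕ → Set (ℕ → Bool) := fun k => ⋃ i ≥ k, B i
  have hS : ∀ k, MeasurableSet (S k) := fun k =>
    MeasurableSet.iUnion fun i => MeasurableSet.iUnion fun _ => hB i
  have hanti : Antitone S := by
    intro a b hab x hx
    simp only [S, mem_iUnion] at hx ⊢
    obtain ⟨i, hi, hx⟩ := hx
    exact ⟨i, hab.trans hi, hx⟩
  have hempty : ⋂ k, S k = ∅ := by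
    rw [eq_empty_iff_forall_notMem]
    intro x hx
    rw [mem_iInter] at hx
    have hxW : x ∈ GG val N n₀ s W := by
      have := hx 0
      simp only [S, mem_iUnion] at this
      obtain ⟨i, _, hi⟩ := this
      exact hi.1
    have hfin := finite_blocked hv hN hu hxW
    obtain ⟨b, hb⟩ := hfin.bddAbove
    have := hx (b + 1)
    simp only [S, mem_iUnion] at this
    obtain ⟨i, hi, hxi⟩ := this
    have := hb (show i ∈ {i | x ∉ GG val N n₀ s (u i :: W)} from hxi.2)
    omega
  have ht := tendsto_measure_iInter_atTop (μ := coin) (s := S)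
    (fun k => (hS k).nullMeasurableSet) hanti ⟨0, measure_ne_top _ _⟩
  rw [hempty, measure_empty] at ht
  have hpos : 0 < coin (GG val N n₀ s W) - c := tsub_pos_of_lt hc
  obtain ⟨k, hk⟩ := (ht.eventually_lt_const hpos).exists
  refine ⟨k, ?_⟩
  have h1 : coin (B k) < coin (GG val N n₀ s W) - c := by
    refine lt_of_le_of_lt (measure_mono ?_) hk
    intro x hx
    simp only [S, mem_iUnion]
    exact ⟨k, le_rfl, hx⟩
  have h2 : coin (GG val N n₀ s W) ≤ coin (GG val N n₀ s (u k :: W)) + coin (B k) := by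
    refine (measure_mono ?_).trans (measure_union_le _ _)
    intro x hx
    by_cases h : x ∈ GG val N n₀ s (u k :: W)
    · exact Or.inl h
    · exact Or.inr ⟨hx, h⟩
  by_contra hcon
  rw [not_lt] at hcon
  have h3 : coin (GG val N n₀ s W) ≤ c + coin (B k) := h2.trans (by gcongr)
  have h4 : c + coin (B k) < coin (GG val N n₀ s W) := by
    have := ENNReal.add_lt_add_left (a := c) (ne_top_of_lt hc) h1
    rwa [add_tsub_cancel_of_le hc.le] at this
  exact absurd (h3.trans_lt h4) (lt_irrefl _)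

/-- **Lemma R.** -/
theorem lemR (hv : Sys val) (hN : ∀ n ∈ N, Pos val n s) (hn₀ : n₀ ∈ N) (m : ℕ) :
    ∃ u : ℕ → A, (∀ k, s ≤ u k) ∧ (∀ k, ∀ n ∈ N, ∀ j < m, val n (u k) j ≠ none) ∧
      (∀ i j, i ≠ j → ∀ n ∈ N, Inc (val n (u i)) (val n (u j))) ∧
      coin {x | ∀ l, ∃ k, ∀ j < l, val n₀ (u k) j = some (x j)} ≠ 0 := by
  classical
  have hδ : coin (KK val n₀ s) ≠ 0 := (hN n₀ hn₀).2 s le_rfl
  obtain ⟨c, hc0, hc⟩ : ∃ c, 0 < c ∧ c < coin (KK val n₀ s) :=
    exists_between (pos_iff_ne_zero.2 hδ)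
  let Ag : List Bool → A → Prop := fun τ t => ∀ k b, τ[k]? = some b → val n₀ t k = some b
  have step : ∀ (W : {W : List A // c < coin (GG val N n₀ s W)}) (τ : List Bool),
      ∃ u : A, s ≤ u ∧ Off val N W.1 u ∧ (∀ n ∈ N, ∀ j < m, val n u j ≠ none) ∧
        c < coin (GG val N n₀ s (u :: W.1)) ∧
        ((∃ t ≥ s, Ag τ t ∧ Off val N W.1 t) → Ag τ u) := by
    rintro ⟨W, hW⟩ τ
    obtain ⟨t, h1, h2, h3⟩ : ∃ t ≥ s, Off val N W t ∧
        ((∃ t ≥ s, Ag τ t ∧ Off val N W t) → Ag τ t) := by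
      by_cases h : ∃ t ≥ s, Ag τ t ∧ Off val N W t
      · obtain ⟨t, h1, h2, h3⟩ := h
        exact ⟨t, h1, h3, fun _ => h2⟩
      · obtain ⟨x, hx⟩ : (GG val N n₀ s W).Nonempty := by
          rw [nonempty_iff_ne_empty]
          intro hempty
          rw [hempty, measure_empty] at hW
          exact absurd hW not_lt_zero
        obtain ⟨t, h1, _, h3⟩ := hx 0
        exact ⟨t, h1, h3, fun h' => absurd h' h⟩
    obtain ⟨t', h4, h5⟩ := hv.exists_def N m (s := t) fun n hn => (hN n hn).1.up h1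
    obtain ⟨u, h6, h7⟩ := hv.seq_split N (s := t') fun n hn => (hN n hn).up (h1.trans h4)
    obtain ⟨i, hi⟩ := exists_small hv hN h7 hW
    refine ⟨u i, h1.trans (h4.trans (h6 i)), h2.up hv (h4.trans (h6 i)), fun n hn j hj => ?_,
      hi, fun h k b hk => ?_⟩
    · exact hv.ne_none (h6 i) (h5 n hn j hj)
    · exact hv.mono n₀ (h4.trans (h6 i)) k b (h3 h k b hk)
  choose F hF1 hF2 hF3 hF4 hF5 using step
  have hc' : c < coin (GG val N n₀ s []) := by rwa [GG_nil]
  let e : ℕ → List Bool := fun k => (Encodable.decode k).getD []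
  let W : ℕ → {W : List A // c < coin (GG val N n₀ s W)} := fun k =>
    Nat.rec ⟨[], hc'⟩ (fun k W => ⟨F W (e k) :: W.1, hF4 W (e k)⟩) k
  have hW : ∀ k, (W (k + 1)).1 = F (W k) (e k) :: (W k).1 := fun k => rfl
  let u : ℕ → A := fun k => F (W k) (e k)
  have hmem : ∀ i j, i < j → u i ∈ (W j).1 := by
    intro i j hij
    induction hij with
    | refl =>
      rw [hW]
      exact List.mem_cons_self
    | step _ ih =>
      rw [hW]
      exact List.mem_cons_of_mem _ ih
  have hanti : ∀ i j, i ≤ j → GG val N n₀ s (W j).1 ⊆ GG val N n₀ s (W i).1 := by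
    intro i j hij
    induction hij with
    | refl => exact Subset.rfl
    | step _ ih =>
      refine Subset.trans ?_ ih
      rw [hW]
      exact GG_anti val _ _
  have hlt : ∀ i j, i < j → ∀ n ∈ N, Inc (val n (u j)) (val n (u i)) := fun i j hij n hn =>
    hF2 (W j) (e j) (u i) (hmem i j hij) n hn
  refine ⟨u, fun k => hF1 _ _, fun k => hF3 _ _, fun i j hij n hn => ?_, ?_⟩
  · rcases Nat.lt_or_gt_of_ne hij with h | h
    · exact (hlt i j h n hn).symm
    · exact hlt j i h n hn
  · have ht := tendsto_measure_iInter_atTop (μ := coin) (s := fun k => GG val N n₀ s (W k).1)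
      (fun k => (isClosed_GG val N n₀ s _).measurableSet.nullMeasurableSet)
      (fun i j hij => hanti i j hij) ⟨0, measure_ne_top _ _⟩
    have h1 : c ≤ coin (⋂ k, GG val N n₀ s (W k).1) :=
      ge_of_tendsto' ht fun k => (W k).2.le
    have h2 : ⋂ k, GG val N n₀ s (W k).1 ⊆
        {x | ∀ l, ∃ k, ∀ j < l, val n₀ (u k) j = some (x j)} := by
      intro x hx l
      rw [mem_iInter] at hx
      let τ : List Bool := (List.range l).map x
      have hτ : ∀ k, k < l → τ[k]? = some (x k) := by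
        intro k hk
        simp [τ, hk]
      have hτ' : ∀ k b, τ[k]? = some b → k < l ∧ b = x k := by
        intro k b h
        by_cases hk : k < l
        · rw [hτ k hk] at h
          exact ⟨hk, (Option.some.inj h).symm⟩
        · rw [List.getElem?_eq_none (by simp [τ]; omega)] at h
          exact absurd h (by simp)
      refine ⟨Encodable.encode τ, fun j hj => ?_⟩
      have h3 : e (Encodable.encode τ) = τ := by simp [e]
      have h4 := hF5 (W (Encodable.encode τ)) (e (Encodable.encode τ))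
      rw [h3] at h4
      have h5 : Ag τ (F (W (Encodable.encode τ)) τ) := by
        apply h4
        obtain ⟨t, h5, h6, h7⟩ := hx (Encodable.encode τ) l
        refine ⟨t, h5, fun k b hk => ?_, h7⟩
        obtain ⟨hk1, rfl⟩ := hτ' k b hk
        exact h6 k hk1
      have h6 := h5 j (x j) (hτ j hj)
      change val n₀ (F (W (Encodable.encode τ)) (e (Encodable.encode τ))) j = some (x j)
      rw [h3]
      exact h6
    intro h0
    have h3 := h1.trans (measure_mono h2)
    rw [h0] at h3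
    exact absurd (hc0.trans_le h3) (lt_irrefl _)

end R

end Pool.Agent.Helper19TD
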