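import Mathlib
import Pool.Agent.Helper19_TD.LemR

/-!
# Generic sequences along a tree of conditions with separated values

The abstract generic theorem: if `E` is meager in every closed set all of whose nonempty open parts
have positive measure, then there is an increasing sequence of conditions that meets given dense
sets and such that for every `n` the `n`-th value is bounded, or lies in a null set `KK`, or is not
in `E`.
-/

set_option autoImplicit false

namespace Pool.Agent.Helper19TD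

open Pool.Agent.Helper56WN MeasureTheory Set Filter
open scoped Topology ENNReal

/-- all nonempty relatively open parts of `P` have positive measure -/
def LocPos (P : Set (ℕ → Bool)) : Prop :=
  ∀ O, IsOpen O → (P ∩ O).Nonempty → coin (P ∩ O) ≠ 0

/-- `E ∩ P` is meager in `P` -/
def MeagerIn (P E : Set (ℕ → Bool)) : Prop := IsMeagre {p : P | (p : ℕ → Bool) ∈ E}

theorem exists_cover {P E : Set (ℕ → Bool)} (hP : IsClosed P) (h : MeagerIn P E) :
    ∃ F : ℕ → Set (ℕ → Bool), (∀ j, IsClosed (F j)) ∧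
      (∀ j O, IsOpen O → (P ∩ O).Nonempty → ∃ y ∈ P ∩ O, y ∉ F j) ∧ E ∩ P ⊆ ⋃ j, F j := by
  obtain ⟨S, hS, hSc, hES⟩ := isMeagre_iff_countable_union_isNowhereDense.1 h
  obtain ⟨f, hf⟩ : ∃ f : ℕ → Set P, insert ∅ S = range f :=
    (hSc.insert ∅).exists_eq_range (insert_nonempty _ _)
  have hnd : ∀ j, IsNowhereDense (f j) := by
    intro j
    have h1 : f j ∈ insert ∅ S := hf ▸ mem_range_self j
    rcases h1 with h1 | h1
    · rw [h1]
      exact isNowhereDense_empty
    · exact hS _ h1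
  refine ⟨fun j => (fun p : P => (p : ℕ → Bool)) '' closure (f j), fun j => ?_, ?_, ?_⟩
  · exact (hP.isClosedEmbedding_subtypeVal.isClosed_iff_image_isClosed).1 isClosed_closure
  · rintro j O hO ⟨y, hyP, hyO⟩
    by_contra hcon
    push Not at hcon
    have h2 : (fun p : P => (p : ℕ → Bool)) ⁻¹' O ⊆ closure (f j) := by
      intro p hp
      obtain ⟨q, hq, hqp⟩ := hcon p ⟨p.2, hp⟩
      have : q = p := Subtype.ext hqp
      exact this ▸ hq
    have h3 : (fun p : P => (p : ℕ → Bool)) ⁻¹' O ⊆ interior (closure (f j)) :=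
      interior_maximal h2 (hO.preimage continuous_subtype_val)
    have h4 : (⟨y, hyP⟩ : P) ∈ interior (closure (f j)) := h3 hyO
    have h5 : interior (closure (f j)) = ∅ := hnd j
    rw [h5] at h4
    exact h4
  · rintro x ⟨hxE, hxP⟩
    obtain ⟨s, hs, hxs⟩ := hES (show (⟨x, hxP⟩ : P) ∈ {p : P | (p : ℕ → Bool) ∈ E} from hxE)
    have h1 : s ∈ range f := hf ▸ mem_insert_of_mem _ hs
    obtain ⟨j, rfl⟩ := h1
    exact mem_iUnion.2 ⟨j, ⟨x, hxP⟩, subset_closure hxs, rfl⟩

/-- an open set of `ℕ → Bool` contains a cylinder around each of its points -/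
theorem exists_cyl {O : Set (ℕ → Bool)} (hO : IsOpen O) {x : ℕ → Bool} (hx : x ∈ O) :
    ∃ M, ∀ y : ℕ → Bool, (∀ k < M, y k = x k) → y ∈ O := by
  obtain ⟨I, u, hI, hu⟩ := (isOpen_pi_iff.1 hO) x hx
  refine ⟨I.sup id + 1, fun y hy => hu fun i hi => ?_⟩
  rw [hy i (Nat.lt_succ_of_le (Finset.le_sup (f := id) hi))]
  exact (hI i hi).2

variable {A : Type*} [Preorder A] {val : ℕ → A → ℕ → Option Bool}

/-- the type of `n` is decided at `s` -/
def Dec (val : ℕ → A → ℕ → Option Bool) (n : ℕ) (s : A) : Prop :=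
  (∃ m, ∀ t ≥ s, val n t m = none) ∨ coin (KK val n s) = 0 ∨ Pos val n s

theorem Dec.up {n : ℕ} {s t : A} (h : s ≤ t) (hs : Dec val n s) : Dec val n t := by
  rcases hs with ⟨m, hm⟩ | h0 | hp
  · exact Or.inl ⟨m, fun t' ht' => hm t' (h.trans ht')⟩
  · exact Or.inr (Or.inl (measure_mono_null (KK_anti h) h0))
  · exact Or.inr (Or.inr (hp.up h))

theorem exists_dec (n : ℕ) (s : A) : ∃ t ≥ s, Dec val n t := by
  by_cases hp : Pos val n s
  · exact ⟨s, le_rfl, Or.inr (Or.inr hp)⟩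
  · unfold Pos at hp
    rw [not_and_or] at hp
    rcases hp with hp | hp
    · unfold Tot at hp
      push Not at hp
      obtain ⟨t, ht, m, hm⟩ := hp
      exact ⟨t, ht, Or.inl ⟨m, hm⟩⟩
    · push Not at hp
      obtain ⟨t, ht, h0⟩ := hp
      exact ⟨t, ht, Or.inr (Or.inl h0)⟩

/-- the successors of a node -/
theorem exists_succ (hv : Sys val) {D : ℕ → A → Prop} (hD : ∀ i s, ∃ t ≥ s, D i t)
    (hDu : ∀ i s t, s ≤ t → D i s → D i t) (s : A) (m : ℕ) :
    ∃ u : ℕ → A, (∀ k, s ≤ u k ∧ D m (u k) ∧ Dec val m (u k)) ∧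
      (∀ n ≤ m, Pos val n s → (∀ i j, i ≠ j → Inc (val n (u i)) (val n (u j))) ∧
        ∀ k, ∀ j < m, val n (u k) j ≠ none) ∧
      (Pos val (Nat.unpair m).1 s →
        coin {x | ∀ l, ∃ k, ∀ j < l, val (Nat.unpair m).1 (u k) j = some (x j)} ≠ 0) := by
  classical
  obtain ⟨s₁, h1, hD1⟩ := hD m s
  obtain ⟨s₂, h2, hdec⟩ := exists_dec (val := val) m s₁
  have h12 : s ≤ s₂ := h1.trans h2
  let N : Finset ℕ := (Finset.range (m + 1)).filter fun n => Pos val n s
  have hN : ∀ n ∈ N, Pos val n s₂ := fun n hn => (Finset.mem_filter.1 hn).2.up h12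
  have hN' : ∀ n ≤ m, Pos val n s → n ∈ N := fun n hn hp =>
    Finset.mem_filter.2 ⟨Finset.mem_range.2 (by omega), hp⟩
  by_cases hp : Pos val (Nat.unpair m).1 s
  · obtain ⟨u, hu1, hu2, hu3, hu4⟩ := lemR hv hN (hN' _ (Nat.unpair_left_le m) hp) m
    refine ⟨u, fun k => ⟨h12.trans (hu1 k), hDu m _ _ (h2.trans (hu1 k)) hD1,
      hdec.up (hu1 k)⟩, fun n hn hpn => ⟨fun i j hij => hu3 i j hij n (hN' n hn hpn),
      fun k j hj => hu2 k n (hN' n hn hpn) j hj⟩, fun _ => hu4⟩
  · obtain ⟨s₃, h3, hs₃⟩ := hv.exists_def N m (s := s₂) fun n hn => (hN n hn).1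
    obtain ⟨u, hu1, hu2⟩ := hv.seq_split N (s := s₃) fun n hn => (hN n hn).up h3
    refine ⟨u, fun k => ⟨h12.trans (h3.trans (hu1 k)), hDu m _ _ (h2.trans (h3.trans (hu1 k))) hD1,
      hdec.up (h3.trans (hu1 k))⟩, fun n hn hpn => ⟨fun i j hij => ?_,
      fun k j hj => ?_⟩, fun h => absurd h hp⟩
    · rcases Nat.lt_or_gt_of_ne hij with h | h
      · exact hu2 i j h n (hN' n hn hpn)
      · exact (hu2 j i h n (hN' n hn hpn)).symm
    · exact hv.ne_none (hu1 k) (hs₃ n (hN' n hn hpn) j hj)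

section Node

variable (u : A → ℕ → ℕ → A) (a₀ : A)

/-- the node with the given list of moves (last move first) -/
def nd : List ℕ → A
  | [] => a₀
  | k :: l => u (nd l) l.length k

/-- the set of all limits of values along the tree, above the node `l` -/
def PP (val : ℕ → A → ℕ → Option Bool) (n : ℕ) (l : List ℕ) : Set (ℕ → Bool) :=
  {x | ∀ m, ∃ l', l <:+ l' ∧ ∀ k < m, val n (nd u a₀ l') k = some (x k)}

omit [Preorder A] in
theorem isClosed_PP (n : ℕ) (l : List ℕ) : IsClosed (PP u a₀ val n l) := by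
  have h1 : PP u a₀ val n l = ⋂ m, {x : ℕ → Bool | (fun k : Fin m => x k) ∈
      {g : Fin m → Bool | ∃ l', l <:+ l' ∧
        ∀ k, ∀ hk : k < m, val n (nd u a₀ l') k = some (g ⟨k, hk⟩)}} := by
    ext x
    simp only [PP, mem_ofPred_eq, mem_iInter]
  rw [h1]
  exact isClosed_iInter fun m => isClosed_restr m _

end Node

/-- the hypotheses on the successor function -/
structure SuccOK (val : ℕ → A → ℕ → Option Bool) (D : ℕ → A → Prop) (u : A → ℕ → ℕ → A) :
    Prop where
  le : ∀ s m k, s ≤ u s m k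
  dense : ∀ s m k, D m (u s m k)
  dec : ∀ s m k, Dec val m (u s m k)
  inc : ∀ s m n, n ≤ m → Pos val n s → ∀ i j, i ≠ j → Inc (val n (u s m i)) (val n (u s m j))
  dfd : ∀ s m n, n ≤ m → Pos val n s → ∀ k, ∀ j < m, val n (u s m k) j ≠ none
  pos : ∀ s m, Pos val (Nat.unpair m).1 s →
    coin {x | ∀ l, ∃ k, ∀ j < l, val (Nat.unpair m).1 (u s m k) j = some (x j)} ≠ 0

variable {D : ℕ → A → Prop} {u : A → ℕ → ℕ → A} {a₀ : A}

theorem SuccOK.nd_le (hu : SuccOK val D u) {l l' : List ℕ} (h : l <:+ l') :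
    nd u a₀ l ≤ nd u a₀ l' := by
  obtain ⟨p, rfl⟩ := h
  induction p with
  | nil => exact le_rfl
  | cons k p ih => exact ih.trans (hu.le _ _ _)

theorem SuccOK.dec_nd (hu : SuccOK val D u) {n : ℕ} {l : List ℕ} (h : n < l.length) :
    Dec val n (nd u a₀ l) ∧ ∀ (_ : ∀ i s t, s ≤ t → D i s → D i t), D n (nd u a₀ l) := by
  induction l with
  | nil => simp at h
  | cons k l ih =>
    rw [List.length_cons] at h
    rcases Nat.lt_succ_iff_lt_or_eq.1 h with h | rfl
    · obtain ⟨h1, h2⟩ := ih h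
      exact ⟨h1.up (hu.le _ _ _), fun hD => hD _ _ _ (hu.le _ _ _) (h2 hD)⟩
    · exact ⟨hu.dec _ _ _, fun _ => hu.dense _ _ _⟩

theorem SuccOK.exists_def (hu : SuccOK val D u) {n : ℕ} {l : List ℕ} (hn : n ≤ l.length)
    (hp : Pos val n (nd u a₀ l)) {l' : List ℕ} (hl : l <:+ l') {j : ℕ} (hj : j < l'.length) :
    ∀ k, val n (nd u a₀ (k :: l')) j ≠ none := fun k =>
  hu.dfd _ _ _ (hn.trans hl.length_le) (hp.up (hu.nd_le hl)) k j hj

/-- a long extension with a given first component of the pairing of its length -/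
theorem exists_long (n : ℕ) (l : List ℕ) : ∃ l', l <:+ l' ∧ (Nat.unpair l'.length).1 = n := by
  refine ⟨List.replicate (Nat.pair n l.length - l.length) 0 ++ l, List.suffix_append _ _, ?_⟩
  rw [List.length_append, List.length_replicate,
    Nat.sub_add_cancel (Nat.right_le_pair n l.length), Nat.unpair_pair]

/-- the set of limits of values along the tree contains sets of positive measure -/
theorem SuccOK.exists_coin (hv : Sys val) (hu : SuccOK val D u) {n : ℕ} {l : List ℕ}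
    (hp : Pos val n (nd u a₀ l)) {l' : List ℕ} (hl : l <:+ l') :
    ∃ X ⊆ PP u a₀ val n l, coin X ≠ 0 ∧
      ∀ x ∈ X, ∀ k b, val n (nd u a₀ l') k = some b → x k = b := by
  obtain ⟨l'', h1, h2⟩ := exists_long n l'
  have h3 := hu.pos (nd u a₀ l'') l''.length
  rw [h2] at h3
  refine ⟨_, ?_, h3 (hp.up (hu.nd_le (hl.trans h1))), ?_⟩
  · intro x hx m
    obtain ⟨k, hk⟩ := hx m
    exact ⟨k :: l'', (hl.trans h1).trans (List.suffix_cons _ _), hk⟩
  · intro x hx k b hb
    obtain ⟨k', hk'⟩ := hx (k + 1)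
    have h4 := hk' k (by omega)
    have h5 := hv.mono n (hu.nd_le (h1.trans (List.suffix_cons k' l''))) k b hb
    rw [show nd u a₀ (k' :: l'') = u (nd u a₀ l'') l''.length k' from rfl, h4] at h5
    exact Option.some.inj h5

theorem nonempty_of_coin {X : Set (ℕ → Bool)} (h : coin X ≠ 0) : X.Nonempty := by
  rw [nonempty_iff_ne_empty]
  rintro rfl
  exact h measure_empty

theorem SuccOK.locPos (hv : Sys val) (hu : SuccOK val D u) {n : ℕ} {l : List ℕ}
    (hp : Pos val n (nd u a₀ l)) : LocPos (PP u a₀ val n l) := by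
  rintro O hO ⟨x, hx, hxO⟩
  obtain ⟨M, hM⟩ := exists_cyl hO hxO
  obtain ⟨l', hl, hl'⟩ := hx M
  obtain ⟨X, h1, h2, h3⟩ := hu.exists_coin hv hp hl
  intro h0
  have h4 : X ⊆ PP u a₀ val n l ∩ O := fun y hy =>
    ⟨h1 hy, hM y fun k hk => h3 y hy k _ (hl' k hk)⟩
  exact h2 (measure_mono_null h4 h0)

/-- comparable or incompatible -/
theorem comparable {l₀ l l' : List ℕ} (h : l₀ <:+ l) (h' : l₀ <:+ l') :
    l <:+ l' ∨ l' <:+ l ∨ ∃ q k k', l₀ <:+ q ∧ k ≠ k' ∧ k :: q <:+ l ∧ k' :: q <:+ l' := by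
  obtain ⟨p, rfl⟩ := h
  induction p generalizing l' with
  | nil => exact Or.inl h'
  | cons a p ih =>
    rcases ih h' with h1 | h1 | ⟨q, k, k', h1, h2, h3, h4⟩
    · -- p ++ l₀ <:+ l'
      obtain ⟨r, rfl⟩ := h1
      rcases r.eq_nil_or_concat with rfl | ⟨r, b, rfl⟩
      · exact Or.inr (Or.inl (List.suffix_cons a (p ++ l₀)))
      · by_cases hab : b = a
        · subst hab
          left
          refine ⟨r, ?_⟩
          simp
        · right
          right
          refine ⟨p ++ l₀, a, b, List.suffix_append _ _, fun h => hab h.symm, ?_, ?_⟩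
          · simp
          · refine ⟨r, ?_⟩
            simp
    · exact Or.inr (Or.inl (h1.trans (List.suffix_cons _ _)))
    · exact Or.inr (Or.inr ⟨q, k, k', h1, h2, h3.trans (List.suffix_cons _ _), h4⟩)

/-- avoiding a closed set that is nowhere dense in `PP` -/
theorem SuccOK.avoid (hv : Sys val) (hu : SuccOK val D u) {n : ℕ} {l : List ℕ}
    (hn : n ≤ l.length) (hp : Pos val n (nd u a₀ l)) {F : Set (ℕ → Bool)} (hF : IsClosed F)
    (hnd : ∀ O, IsOpen O → (PP u a₀ val n l ∩ O).Nonempty → ∃ y ∈ PP u a₀ val n l ∩ O, y ∉ F)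
    {l' : List ℕ} (hl : l <:+ l') :
    ∃ l'', l' <:+ l'' ∧ ∀ x, (∀ k b, val n (nd u a₀ l'') k = some b → x k = b) → x ∉ F := by
  obtain ⟨X, hX1, hX2, hX3⟩ := hu.exists_coin hv hp hl
  obtain ⟨x, hx⟩ := nonempty_of_coin hX2
  obtain ⟨J, hJ⟩ := hv.fin n (nd u a₀ l')
  let O : Set (ℕ → Bool) := {y | ∀ k < J, y k = x k}
  have hO : IsOpen O := by
    have h1 : O = ⋂ k ∈ Finset.range J, {y : ℕ → Bool | y k = x k} := by
      ext y
      simp [O]
    rw [h1]
    refine isOpen_biInter_finset fun k _ => ?_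
    exact (isOpen_discrete ({x k} : Set Bool)).preimage (continuous_apply (A := fun _ => Bool) k)
  obtain ⟨y, ⟨hyP, hyO⟩, hyF⟩ := hnd O hO ⟨x, hX1 hx, fun k _ => rfl⟩
  obtain ⟨M, hM⟩ := exists_cyl hF.isOpen_compl hyF
  obtain ⟨q, hlq, hq⟩ := hyP (max M J)
  have hy' : ∀ k b, val n (nd u a₀ l') k = some b → y k = b := by
    intro k b hb
    have hk : k < J := by
      by_contra hk
      rw [hJ k (by omega)] at hb
      exact absurd hb (by simp)
    rw [hyO k hk]
    exact hX3 x hx k b hb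
  rcases comparable hlq hl with h | h | ⟨r, k, k', h1, h2, h3, h4⟩
  · -- q <:+ l'
    refine ⟨l', List.suffix_rfl, fun z hz => hM z fun k hk => ?_⟩
    exact hz k _ (hv.mono n (hu.nd_le h) k _ (hq k (lt_max_of_lt_left hk)))
  · refine ⟨q, h, fun z hz => hM z fun k hk => ?_⟩
    exact hz k _ (hq k (lt_max_of_lt_left hk))
  · exfalso
    obtain ⟨j, b, h5, h6⟩ := hu.inc (nd u a₀ r) r.length n (hn.trans h1.length_le)
      (hp.up (hu.nd_le h1)) k k' h2
    have h7 : val n (nd u a₀ q) j = some b := hv.mono n (hu.nd_le h3) j b h5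
    have h8 : val n (nd u a₀ l') j = some (!b) := hv.mono n (hu.nd_le h4) j _ h6
    have h9 := hy' j _ h8
    have hj : j < J := by
      by_contra hj
      rw [hJ j (by omega)] at h8
      exact absurd h8 (by simp)
    rw [hq j (lt_max_of_lt_right hj)] at h7
    rw [Option.some.inj h7] at h9
    simp at h9

/-- **The generic theorem.** -/
theorem exists_generic (hv : Sys val) {D : ℕ → A → Prop} (hD : ∀ i s, ∃ t ≥ s, D i t)
    (hDu : ∀ i s t, s ≤ t → D i s → D i t) (a₀ : A) {E : Set (ℕ → Bool)}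
    (hE : ∀ P, IsClosed P → LocPos P → MeagerIn P E) :
    ∃ t : ℕ → A, a₀ ≤ t 0 ∧ (∀ i, t i ≤ t (i + 1)) ∧ (∀ i, ∃ j, D i (t j)) ∧
      ∀ n, (∃ i m, ∀ t' ≥ t i, val n t' m = none) ∨ (∃ i, coin (KK val n (t i)) = 0) ∨
        ((∀ m, ∃ i, val n (t i) m ≠ none) ∧
          ∀ x, (∀ i k b, val n (t i) k = some b → x k = b) → x ∉ E) := by
  classical
  choose u hu1 hu2 hu3 using exists_succ hv hD hDu
  have hu : SuccOK val D u :=
    ⟨fun s m k => (hu1 s m k).1, fun s m k => (hu1 s m k).2.1, fun s m k => (hu1 s m k).2.2,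
      fun s m n hn hp => (hu2 s m n hn hp).1, fun s m n hn hp => (hu2 s m n hn hp).2, hu3⟩
  -- the closed sets to be avoided
  have hF : ∀ (n : ℕ) (l : List ℕ), ∃ F : ℕ → Set (ℕ → Bool), Pos val n (nd u a₀ l) →
      (∀ j, IsClosed (F j)) ∧ (∀ j O, IsOpen O → (PP u a₀ val n l ∩ O).Nonempty →
        ∃ y ∈ PP u a₀ val n l ∩ O, y ∉ F j) ∧ E ∩ PP u a₀ val n l ⊆ ⋃ j, F j := by
    intro n l
    by_cases hp : Pos val n (nd u a₀ l)
    · obtain ⟨F, h1⟩ := exists_cover (isClosed_PP u a₀ n l)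
        (hE _ (isClosed_PP u a₀ n l) (hu.locPos hv hp))
      exact ⟨F, fun _ => h1⟩
    · exact ⟨fun _ => ∅, fun h => absurd h hp⟩
  choose F hF using hF
  have step : ∀ (l' : List ℕ) (r : ℕ × List ℕ × ℕ), ∃ l'', l' <:+ l'' ∧
      l'.length < l''.length ∧ (r.1 ≤ r.2.1.length → Pos val r.1 (nd u a₀ r.2.1) →
        r.2.1 <:+ l' → ∀ x, (∀ k b, val r.1 (nd u a₀ l'') k = some b → x k = b) →
          x ∉ F r.1 r.2.1 r.2.2) := by
    rintro l' ⟨n, l, j⟩
    by_cases h : n ≤ l.length ∧ Pos val n (nd u a₀ l) ∧ l <:+ l'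
    · obtain ⟨hn, hp, hl⟩ := h
      obtain ⟨h1, h2, _⟩ := hF n l hp
      obtain ⟨l'', h3, h4⟩ := hu.avoid hv hn hp (h1 j) (h2 j) hl
      refine ⟨0 :: l'', h3.trans (List.suffix_cons _ _), ?_, fun _ _ _ x hx => h4 x ?_⟩
      · exact Nat.lt_succ_of_le h3.length_le
      · intro k b hb
        exact hx k b (hv.mono n (hu.nd_le (List.suffix_cons 0 l'')) k b hb)
    · refine ⟨0 :: l', List.suffix_cons _ _, by simp, fun h1 h2 h3 => absurd ⟨h1, h2, h3⟩ h⟩
  choose G hG1 hG2 hG3 using step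
  let e : ℕ → ℕ × List ℕ × ℕ := fun k => (Encodable.decode (Nat.unpair k).1).getD (0, [], 0)
  let L : ℕ → List ℕ := fun k => Nat.rec [] (fun k l => G l (e k)) k
  have hL : ∀ k, L (k + 1) = G (L k) (e k) := fun k => rfl
  have hLs : ∀ i j, i ≤ j → L i <:+ L j := by
    intro i j hij
    induction hij with
    | refl => exact List.suffix_rfl
    | step _ ih => exact ih.trans (hL _ ▸ hG1 _ _)
  have hlen : ∀ k, k ≤ (L k).length := by
    intro k
    induction k with
    | zero => exact Nat.zero_le _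
    | succ k ih =>
      rw [hL]
      exact Nat.succ_le_of_lt (ih.trans_lt (hG2 _ _))
  refine ⟨fun k => nd u a₀ (L k), le_rfl, fun i => hu.nd_le (hLs i (i + 1) (by omega)),
    fun i => ⟨i + 1, (hu.dec_nd (Nat.lt_of_lt_of_le (Nat.lt_succ_self i) (hlen (i + 1)))).2 hDu⟩,
    fun n => ?_⟩
  have hdec := (hu.dec_nd (a₀ := a₀) (Nat.lt_of_lt_of_le (Nat.lt_succ_self n) (hlen (n + 1)))).1
  rcases hdec with ⟨m, hm⟩ | h0 | hp
  · exact Or.inl ⟨n + 1, m, hm⟩
  · exact Or.inr (Or.inl ⟨n + 1, h0⟩)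
  · right
    right
    have hn : n ≤ (L (n + 1)).length := (Nat.le_succ n).trans (hlen (n + 1))
    -- definedness along the sequence
    have hdef : ∀ m, ∃ i, n + 1 ≤ i ∧ ∀ j < m, val n (nd u a₀ (L i)) j ≠ none := by
      intro m
      refine ⟨max (n + 1) m + 1, by omega, fun j hj => ?_⟩
      have h1 : L (n + 1) <:+ L (max (n + 1) m) := hLs (n + 1) _ (le_max_left (n + 1) m)
      have h2 := hlen (max (n + 1) m)
      have h3 : (L (max (n + 1) m)).length < (L (max (n + 1) m + 1)).length := by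
        rw [hL]
        exact hG2 _ _
      obtain ⟨p, hp'⟩ := hLs (max (n + 1) m) (max (n + 1) m + 1) (by omega)
      rcases p.eq_nil_or_concat with rfl | ⟨p, k, rfl⟩
      · rw [← hp'] at h3
        simp at h3
      · have h4 : k :: L (max (n + 1) m) <:+ L (max (n + 1) m + 1) := ⟨p, by rw [← hp']; simp⟩
        exact hv.ne_none (hu.nd_le h4)
          (hu.exists_def hn hp h1 (j := j) (by omega) k)
    refine ⟨fun m => ?_, fun x hx hxE => ?_⟩
    · obtain ⟨i, _, hi⟩ := hdef (m + 1)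
      exact ⟨i, hi m (by omega)⟩
    · have hxP : x ∈ PP u a₀ val n (L (n + 1)) := by
        intro m
        obtain ⟨i, hi1, hi2⟩ := hdef m
        refine ⟨L i, hLs _ _ hi1, fun k hk => ?_⟩
        obtain ⟨b, hb⟩ := Option.ne_none_iff_exists'.1 (hi2 k hk)
        rw [hb, hx i k b hb]
      obtain ⟨h1, h2, h3⟩ := hF n (L (n + 1)) hp
      obtain ⟨j, hj⟩ := mem_iUnion.1 (h3 ⟨hxE, hxP⟩)
      let c := Encodable.encode (n, L (n + 1), j)
      let i := Nat.pair c (n + 1)
      have hi : n + 1 ≤ i := Nat.right_le_pair _ _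
      have hei : e i = (n, L (n + 1), j) := by
        simp only [e, i, Nat.unpair_pair, c, Encodable.encodek, Option.getD_some]
      have h4 := hG3 (L i) (e i)
      rw [hei] at h4
      refine h4 hn hp (hLs _ _ hi) x (fun k b hb => hx (i + 1) k b ?_) hj
      change val n (nd u a₀ (L (i + 1))) k = some b
      rw [hL, hei]
      exact hb

end Pool.Agent.Helper19TD
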