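import Mathlib
import Pool.Agent.Helper19_TD.Plug

/-!
# Turing determinacy and a dichotomy for arbitrary sets of reals

A set of reals is thin if it is covered by countably many closed null sets. For every set `E` of
reals the explicit Turing invariant set `Vis E` has the following properties. Player I wins the
game with payoff set `Vis E` if and only if `E` is thin. If the game is determined and `E` is not
thin, then there is a closed set `P`, all of whose nonempty relatively open parts have positive
measure, such that `E ∩ P` is not meager in `P`; and `E + F` is not meager for every set `F` that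
is not thin. In particular, if `F` is a meager filter on `ω` and the game with payoff set `Vis F`
is determined, then `F` is thin.
-/

set_option autoImplicit false

namespace Pool.Agent.Results.MP_917879_lc.ClosedCovers

open Pool.Agent.Helper25TD Pool.Agent.Helper56WN Pool.Agent.Helper15TD
open Pool.Agent.Helper56TB (Members)

/-- A set that is not thin is not meager in some closed set with open parts of positive measure, if
the game with payoff set `Vis E` is determined; sums of sets that are not thin, meager filters. -/
theorem result :
    (∀ E : Set (ℕ → Bool), TuringInvariant (Vis E) ∧ (WinsI (Vis E) ↔ Thin E) ∧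
      (WinsI (Vis E) ∨ WinsII (Vis E) → ¬ Thin E →
        (∃ P : Set (ℕ → Bool), IsClosed P ∧
          (∀ O : Set (ℕ → Bool), IsOpen O → (P ∩ O).Nonempty → 0 < coin (P ∩ O)) ∧
          ¬ IsMeagre {p : P | (p : ℕ → Bool) ∈ E}) ∧
        ∀ F : Set (ℕ → Bool), ¬ Thin F → ¬ IsMeagre (Sums E F))) ∧
    (∀ F : Filter ℕ, IsMeagre (Members F) →
      WinsI (Vis (Members F)) ∨ WinsII (Vis (Members F)) → Thin (Members F)) := by
  refine ⟨fun E => ⟨turingInvariant_vis E, winsI_iff_thin E, fun h hE =>
    ⟨?_, fun _ hF => not_isMeagre_sums (winsII_of_determined h hE) hF⟩⟩,
    fun _ hm h => thin_members hm h⟩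
  obtain ⟨P, h1, h2, h3⟩ :=
    Pool.Agent.Helper19TD.exists_not_meagerIn (winsII_of_determined h hE)
  exact ⟨P, h1, fun O hO hne => pos_iff_ne_zero.2 (h2 O hO hne), h3⟩

end Pool.Agent.Results.MP_917879_lc.ClosedCovers
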