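import Mathlib
import Pool.Agent.Helper19_TD.LemRM

/-!
# Generic sequences along a tree of conditions with separated values

The abstract generic theorem: if `E` is meager in every closed set all of whose nonempty open parts
have positive measure for some measure in `M`, then there is an increasing sequence of conditions that meets given dense
sets and such that for every `n` the `n`-th value is bounded, or lies in a null set `KK`, or is not
in `E`.
-/

set_option autoImplicit false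

namespace Pool.Agent.Helper19TM

open MeasureTheory Set Filter
open scoped Topology ENNReal

variable {M : Set (Measure (ℕ → Bool))}

/-- every nonempty relatively open part of `P` has positive measure for some measure in `M` -/
def LocPos (M : Set (Measure (ℕ → Bool))) (P : Set (ℕ → Bool)) : Prop :=
  ∀ O, IsOpen O → (P ∩ O).Nonempty → MPos M (P ∩ O)

/-- `E ∩ P` is meager in `P` -/
def MeagerIn (P E : Set (ℕ → Bool)) : Prop := IsMeagre {p : P | (p : ℕ → Bool) ∈ E}

theorem exists_cover {P E : Set (ℕ → Bool)} (hP : IsClosed P) (h : MeagerIn P E) :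
    ∃ F : ℕ → Set (ℕ → Bool), (∀ j, IsClosed (F j)) ∧
      (∀ j O, IsOpen O → (P ∩ O).Nonempty → ∃ y ∈ P ∩ O, y ∉ F j) ∧ E ∩ P ⊆ ⋃ j, F j := by
  obtain ⟨S, hS, hSc, hES⟩ := isMeagre_iff_countable_union_isNowhereDense.1 h
  obtain ⟨f, hf⟩ : ∃ f : ℕ → Set P, insert ∅ S = range f :=
    (hSc.insert ∅).exists_eq_range (insert_nonempty _ _)
  have hnd : ∀ j, IsNowhereDense (f j) := by
    intro j
    have h1 : f j ∈ insert ∅ S := hf ▸ mem_range_self j
    rcases h1 with h1 | h1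
    · rw [h1]
      exact isNowhereDense_empty
    · exact hS _ h1
  refine ⟨fun j => (fun p : P => (p : ℕ → Bool)) '' closure (f j), fun j => ?_, ?_, ?_⟩
  · exact (hP.isClosedEmbedding_subtypeVal.isClosed_iff_image_isClosed).1 isClosed_closure
  · rintro j O hO ⟨y, hyP, hyO⟩
    by_contra hcon
    push Not at hcon
    have h2 : (fun p : P => (p : ℕ → Bool)) ⁻¹' O ⊆ closure (f j) := by
      intro p hp
      obtain ⟨q, hq, hqp⟩ := hcon p ⟨p.2, hp⟩
      have : q = p := Subtype.ext hqp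
      exact this ▸ hq
    have h3 : (fun p : P => (p : ℕ → Bool)) ⁻¹' O ⊆ interior (closure (f j)) :=
      interior_maximal h2 (hO.preimage continuous_subtype_val)
    have h4 : (⟨y, hyP⟩ : P) ∈ interior (closure (f j)) := h3 hyO
    have h5 : interior (closure (f j)) = ∅ := hnd j
    rw [h5] at h4
    exact h4
  · rintro x ⟨hxE, hxP⟩
    obtain ⟨s, hs, hxs⟩ := hES (show (⟨x, hxP⟩ : P) ∈ {p : P | (p : ℕ → Bool) ∈ E} from hxE)
    have h1 : s ∈ range f := hf ▸ mem_insert_of_mem _ hs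
    obtain ⟨j, rfl⟩ := h1
    exact mem_iUnion.2 ⟨j, ⟨x, hxP⟩, subset_closure hxs, rfl⟩

/-- an open set of `ℕ → Bool` contains a cylinder around each of its points -/
theorem exists_cyl {O : Set (ℕ → Bool)} (hO : IsOpen O) {x : ℕ → Bool} (hx : x ∈ O) :
    ∃ M, ∀ y : ℕ → Bool, (∀ k < M, y k = x k) → y ∈ O := by
  obtain ⟨I, u, hI, hu⟩ := (isOpen_pi_iff.1 hO) x hx
  refine ⟨I.sup id + 1, fun y hy => hu fun i hi => ?_⟩
  rw [hy i (Nat.lt_succ_of_le (Finset.le_sup (f := id) hi))]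
  exact (hI i hi).2

variable {A : Type*} [Preorder A] {val : ℕ → A → ℕ → Option Bool}

/-- the type of `n` is decided at `s` -/
def Dec (M : Set (Measure (ℕ → Bool))) (val : ℕ → A → ℕ → Option Bool) (n : ℕ) (s : A) : Prop :=
  (∃ m, ∀ t ≥ s, val n t m = none) ∨ ¬ MPos M (KK val n s) ∨
    (Tot val n s ∧ ∃ x₀, KK val n s ⊆ {x₀} ∧ MPos M {x₀}) ∨ Pos M val n s

theorem Dec.up {n : ℕ} {s t : A} (h : s ≤ t) (hs : Dec M val n s) : Dec M val n t := by
  rcases hs with ⟨m, hm⟩ | h0 | ⟨h0, x₀, h1, h2⟩ | hp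
  · exact Or.inl ⟨m, fun t' ht' => hm t' (h.trans ht')⟩
  · exact Or.inr (Or.inl fun h1 => h0 (h1.mono (KK_anti h)))
  · exact Or.inr (Or.inr (Or.inl ⟨h0.up h, x₀, (KK_anti h).trans h1, h2⟩))
  · exact Or.inr (Or.inr (Or.inr (hp.up h)))

theorem exists_dec (M : Set (Measure (ℕ → Bool))) (n : ℕ) (s : A) : ∃ t ≥ s, Dec M val n t := by
  by_cases hp : Pos M val n s
  · exact ⟨s, le_rfl, Or.inr (Or.inr (Or.inr hp))⟩
  · by_cases ht : Tot val n s
    · unfold Pos at hp
      push Not at hp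
      obtain ⟨t, hst, h1⟩ := hp ht
      refine ⟨t, hst, Or.inr ?_⟩
      by_cases h2 : MPos M (KK val n t)
      · right
        left
        obtain ⟨μ, hμ, h3⟩ := h2
        obtain ⟨x₀, hx₀⟩ : (KK val n t).Nonempty := by
          rw [nonempty_iff_ne_empty]
          intro h4
          rw [h4] at h3
          exact h3 measure_empty
        have h4 : KK val n t ⊆ {x₀} := by
          intro y hy
          by_contra hne
          exact h1 ⟨μ, hμ, h3⟩ ⟨y, hy, x₀, hx₀, hne⟩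
        exact ⟨ht.up hst, x₀, h4, MPos.mono ⟨μ, hμ, h3⟩ h4⟩
      · exact Or.inl h2
    · unfold Tot at ht
      push Not at ht
      obtain ⟨t, hst, m, hm⟩ := ht
      exact ⟨t, hst, Or.inl ⟨m, hm⟩⟩

/-- the successors of a node -/
theorem exists_succ (hM : Nice M) (hv : Sys val) {D : ℕ → A → Prop} (hD : ∀ i s, ∃ t ≥ s, D i t)
    (hDu : ∀ i s t, s ≤ t → D i s → D i t) (s : A) (m : ℕ) :
    ∃ u : ℕ → A, (∀ k, s ≤ u k ∧ D m (u k) ∧ Dec M val m (u k)) ∧
      (∀ n ≤ m, Pos M val n s → ∀ i j, i ≠ j → Inc (val n (u i)) (val n (u j))) ∧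
      (∀ n ≤ m, Tot val n s → ∀ k, ∀ j < m, val n (u k) j ≠ none) ∧
      (Pos M val (Nat.unpair m).1 s →
        MPos M {x | ∀ l, ∃ k, ∀ j < l, val (Nat.unpair m).1 (u k) j = some (x j)}) := by
  classical
  obtain ⟨s₁, h1, hD1⟩ := hD m s
  obtain ⟨s₂, h2, hdec⟩ := exists_dec (val := val) M m s₁
  have h12 : s ≤ s₂ := h1.trans h2
  let NT : Finset ℕ := (Finset.range (m + 1)).filter fun n => Tot val n s
  obtain ⟨s₃, h3, hs₃⟩ := hv.exists_def NT m (s := s₂) fun n hn =>
    (Finset.mem_filter.1 hn).2.up h12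
  have h23 : s ≤ s₃ := h12.trans h3
  let N : Finset ℕ := (Finset.range (m + 1)).filter fun n => Pos M val n s
  have hN : ∀ n ∈ N, Pos M val n s₃ := fun n hn => (Finset.mem_filter.1 hn).2.up h23
  have hN' : ∀ n ≤ m, Pos M val n s → n ∈ N := fun n hn hp =>
    Finset.mem_filter.2 ⟨Finset.mem_range.2 (by omega), hp⟩
  have hNT : ∀ n ≤ m, Tot val n s → ∀ j < m, val n s₃ j ≠ none := fun n hn ht =>
    hs₃ n (Finset.mem_filter.2 ⟨Finset.mem_range.2 (by omega), ht⟩)
  by_cases hp : Pos M val (Nat.unpair m).1 s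
  · obtain ⟨u, hu1, -, hu3, hu4⟩ := lemR hM hv hN (hN' _ (Nat.unpair_left_le m) hp) m
    exact ⟨u, fun k => ⟨h23.trans (hu1 k), hDu m _ _ (h2.trans (h3.trans (hu1 k))) hD1,
      hdec.up (h3.trans (hu1 k))⟩, fun n hn hpn i j hij => hu3 i j hij n (hN' n hn hpn),
      fun n hn ht k j hj => hv.ne_none (hu1 k) (hNT n hn ht j hj), fun _ => hu4⟩
  · obtain ⟨u, hu1, hu2⟩ := hv.seq_split (M := M) N (s := s₃) hN
    refine ⟨u, fun k => ⟨h23.trans (hu1 k), hDu m _ _ (h2.trans (h3.trans (hu1 k))) hD1,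
      hdec.up (h3.trans (hu1 k))⟩, fun n hn hpn i j hij => ?_,
      fun n hn ht k j hj => hv.ne_none (hu1 k) (hNT n hn ht j hj), fun h => absurd h hp⟩
    rcases Nat.lt_or_gt_of_ne hij with h | h
    · exact hu2 i j h n (hN' n hn hpn)
    · exact (hu2 j i h n (hN' n hn hpn)).symm

section Node

variable (u : A → ℕ → ℕ → A) (a₀ : A)

/-- the node with the given list of moves (last move first) -/
def nd : List ℕ → A
  | [] => a₀
  | k :: l => u (nd l) l.length k

/-- the set of all limits of values along the tree, above the node `l` -/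
def PP (val : ℕ → A → ℕ → Option Bool) (n : ℕ) (l : List ℕ) : Set (ℕ → Bool) :=
  {x | ∀ m, ∃ l', l <:+ l' ∧ ∀ k < m, val n (nd u a₀ l') k = some (x k)}

omit [Preorder A] in
theorem isClosed_PP (n : ℕ) (l : List ℕ) : IsClosed (PP u a₀ val n l) := by
  have h1 : PP u a₀ val n l = ⋂ m, {x : ℕ → Bool | (fun k : Fin m => x k) ∈
      {g : Fin m → Bool | ∃ l', l <:+ l' ∧
        ∀ k, ∀ hk : k < m, val n (nd u a₀ l') k = some (g ⟨k, hk⟩)}} := by
    ext x
    simp only [PP, mem_ofPred_eq, mem_iInter]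
  rw [h1]
  exact isClosed_iInter fun m => isClosed_restr m _

end Node

/-- the hypotheses on the successor function -/
structure SuccOK (M : Set (Measure (ℕ → Bool))) (val : ℕ → A → ℕ → Option Bool)
    (D : ℕ → A → Prop) (u : A → ℕ → ℕ → A) : Prop where
  le : ∀ s m k, s ≤ u s m k
  dense : ∀ s m k, D m (u s m k)
  dec : ∀ s m k, Dec M val m (u s m k)
  inc : ∀ s m n, n ≤ m → Pos M val n s → ∀ i j, i ≠ j → Inc (val n (u s m i)) (val n (u s m j))
  dfd : ∀ s m n, n ≤ m → Tot val n s → ∀ k, ∀ j < m, val n (u s m k) j ≠ none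
  pos : ∀ s m, Pos M val (Nat.unpair m).1 s →
    MPos M {x | ∀ l, ∃ k, ∀ j < l, val (Nat.unpair m).1 (u s m k) j = some (x j)}

variable {D : ℕ → A → Prop} {u : A → ℕ → ℕ → A} {a₀ : A}

theorem SuccOK.nd_le (hu : SuccOK M val D u) {l l' : List ℕ} (h : l <:+ l') :
    nd u a₀ l ≤ nd u a₀ l' := by
  obtain ⟨p, rfl⟩ := h
  induction p with
  | nil => exact le_rfl
  | cons k p ih => exact ih.trans (hu.le _ _ _)

theorem SuccOK.dec_nd (hu : SuccOK M val D u) {n : ℕ} {l : List ℕ} (h : n < l.length) :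
    Dec M val n (nd u a₀ l) ∧ ∀ (_ : ∀ i s t, s ≤ t → D i s → D i t), D n (nd u a₀ l) := by
  induction l with
  | nil => simp at h
  | cons k l ih =>
    rw [List.length_cons] at h
    rcases Nat.lt_succ_iff_lt_or_eq.1 h with h | rfl
    · obtain ⟨h1, h2⟩ := ih h
      exact ⟨h1.up (hu.le _ _ _), fun hD => hD _ _ _ (hu.le _ _ _) (h2 hD)⟩
    · exact ⟨hu.dec _ _ _, fun _ => hu.dense _ _ _⟩

theorem SuccOK.exists_def (hu : SuccOK M val D u) {n : ℕ} {l : List ℕ} (hn : n ≤ l.length)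
    (hp : Tot val n (nd u a₀ l)) {l' : List ℕ} (hl : l <:+ l') {j : ℕ} (hj : j < l'.length) :
    ∀ k, val n (nd u a₀ (k :: l')) j ≠ none := fun k =>
  hu.dfd _ _ _ (hn.trans hl.length_le) (hp.up (hu.nd_le hl)) k j hj

/-- a long extension with a given first component of the pairing of its length -/
theorem exists_long (n : ℕ) (l : List ℕ) : ∃ l', l <:+ l' ∧ (Nat.unpair l'.length).1 = n := by
  refine ⟨List.replicate (Nat.pair n l.length - l.length) 0 ++ l, List.suffix_append _ _, ?_⟩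
  rw [List.length_append, List.length_replicate,
    Nat.sub_add_cancel (Nat.right_le_pair n l.length), Nat.unpair_pair]

/-- the set of limits of values along the tree contains sets of positive measure -/
theorem SuccOK.exists_coin (hv : Sys val) (hu : SuccOK M val D u) {n : ℕ} {l : List ℕ}
    (hp : Pos M val n (nd u a₀ l)) {l' : List ℕ} (hl : l <:+ l') :
    ∃ X ⊆ PP u a₀ val n l, MPos M X ∧
      ∀ x ∈ X, ∀ k b, val n (nd u a₀ l') k = some b → x k = b := by
  obtain ⟨l'', h1, h2⟩ := exists_long n l'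
  have h3 := hu.pos (nd u a₀ l'') l''.length
  rw [h2] at h3
  refine ⟨_, ?_, h3 (hp.up (hu.nd_le (hl.trans h1))), ?_⟩
  · intro x hx m
    obtain ⟨k, hk⟩ := hx m
    exact ⟨k :: l'', (hl.trans h1).trans (List.suffix_cons _ _), hk⟩
  · intro x hx k b hb
    obtain ⟨k', hk'⟩ := hx (k + 1)
    have h4 := hk' k (by omega)
    have h5 := hv.mono n (hu.nd_le (h1.trans (List.suffix_cons k' l''))) k b hb
    rw [show nd u a₀ (k' :: l'') = u (nd u a₀ l'') l''.length k' from rfl, h4] at h5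
    exact Option.some.inj h5

theorem MPos.nonempty {X : Set (ℕ → Bool)} (h : MPos M X) : X.Nonempty := by
  rw [nonempty_iff_ne_empty]
  rintro rfl
  obtain ⟨μ, _, h0⟩ := h
  exact h0 measure_empty

theorem SuccOK.locPos (hv : Sys val) (hu : SuccOK M val D u) {n : ℕ} {l : List ℕ}
    (hp : Pos M val n (nd u a₀ l)) : LocPos M (PP u a₀ val n l) := by
  rintro O hO ⟨x, hx, hxO⟩
  obtain ⟨M, hM⟩ := exists_cyl hO hxO
  obtain ⟨l', hl, hl'⟩ := hx M
  obtain ⟨X, h1, h2, h3⟩ := hu.exists_coin hv hp hl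
  exact h2.mono fun y hy => ⟨h1 hy, hM y fun k hk => h3 y hy k _ (hl' k hk)⟩

/-- comparable or incompatible -/
theorem comparable {l₀ l l' : List ℕ} (h : l₀ <:+ l) (h' : l₀ <:+ l') :
    l <:+ l' ∨ l' <:+ l ∨ ∃ q k k', l₀ <:+ q ∧ k ≠ k' ∧ k :: q <:+ l ∧ k' :: q <:+ l' := by
  obtain ⟨p, rfl⟩ := h
  induction p generalizing l' with
  | nil => exact Or.inl h'
  | cons a p ih =>
    rcases ih h' with h1 | h1 | ⟨q, k, k', h1, h2, h3, h4⟩
    · -- p ++ l₀ <:+ l'
      obtain ⟨r, rfl⟩ := h1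
      rcases r.eq_nil_or_concat with rfl | ⟨r, b, rfl⟩
      · exact Or.inr (Or.inl (List.suffix_cons a (p ++ l₀)))
      · by_cases hab : b = a
        · subst hab
          left
          refine ⟨r, ?_⟩
          simp
        · right
          right
          refine ⟨p ++ l₀, a, b, List.suffix_append _ _, fun h => hab h.symm, ?_, ?_⟩
          · simp
          · refine ⟨r, ?_⟩
            simp
    · exact Or.inr (Or.inl (h1.trans (List.suffix_cons _ _)))
    · exact Or.inr (Or.inr ⟨q, k, k', h1, h2, h3.trans (List.suffix_cons _ _), h4⟩)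

/-- avoiding a closed set that is nowhere dense in `PP` -/
theorem SuccOK.avoid (hv : Sys val) (hu : SuccOK M val D u) {n : ℕ} {l : List ℕ}
    (hn : n ≤ l.length) (hp : Pos M val n (nd u a₀ l)) {F : Set (ℕ → Bool)} (hF : IsClosed F)
    (hnd : ∀ O, IsOpen O → (PP u a₀ val n l ∩ O).Nonempty → ∃ y ∈ PP u a₀ val n l ∩ O, y ∉ F)
    {l' : List ℕ} (hl : l <:+ l') :
    ∃ l'', l' <:+ l'' ∧ ∀ x, (∀ k b, val n (nd u a₀ l'') k = some b → x k = b) → x ∉ F := by
  obtain ⟨X, hX1, hX2, hX3⟩ := hu.exists_coin hv hp hl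
  obtain ⟨x, hx⟩ := hX2.nonempty
  obtain ⟨J, hJ⟩ := hv.fin n (nd u a₀ l')
  let O : Set (ℕ → Bool) := {y | ∀ k < J, y k = x k}
  have hO : IsOpen O := by
    have h1 : O = ⋂ k ∈ Finset.range J, {y : ℕ → Bool | y k = x k} := by
      ext y
      simp [O]
    rw [h1]
    refine isOpen_biInter_finset fun k _ => ?_
    exact (isOpen_discrete ({x k} : Set Bool)).preimage (continuous_apply (A := fun _ => Bool) k)
  obtain ⟨y, ⟨hyP, hyO⟩, hyF⟩ := hnd O hO ⟨x, hX1 hx, fun k _ => rfl⟩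
  obtain ⟨M, hM⟩ := exists_cyl hF.isOpen_compl hyF
  obtain ⟨q, hlq, hq⟩ := hyP (max M J)
  have hy' : ∀ k b, val n (nd u a₀ l') k = some b → y k = b := by
    intro k b hb
    have hk : k < J := by
      by_contra hk
      rw [hJ k (by omega)] at hb
      exact absurd hb (by simp)
    rw [hyO k hk]
    exact hX3 x hx k b hb
  rcases comparable hlq hl with h | h | ⟨r, k, k', h1, h2, h3, h4⟩
  · -- q <:+ l'
    refine ⟨l', List.suffix_rfl, fun z hz => hM z fun k hk => ?_⟩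
    exact hz k _ (hv.mono n (hu.nd_le h) k _ (hq k (lt_max_of_lt_left hk)))
  · refine ⟨q, h, fun z hz => hM z fun k hk => ?_⟩
    exact hz k _ (hq k (lt_max_of_lt_left hk))
  · exfalso
    obtain ⟨j, b, h5, h6⟩ := hu.inc (nd u a₀ r) r.length n (hn.trans h1.length_le)
      (hp.up (hu.nd_le h1)) k k' h2
    have h7 : val n (nd u a₀ q) j = some b := hv.mono n (hu.nd_le h3) j b h5
    have h8 : val n (nd u a₀ l') j = some (!b) := hv.mono n (hu.nd_le h4) j _ h6
    have h9 := hy' j _ h8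
    have hj : j < J := by
      by_contra hj
      rw [hJ j (by omega)] at h8
      exact absurd h8 (by simp)
    rw [hq j (lt_max_of_lt_right hj)] at h7
    rw [Option.some.inj h7] at h9
    simp at h9

/-- **The generic theorem.** -/
theorem exists_generic (hM : Nice M) (hv : Sys val) {D : ℕ → A → Prop} (hD : ∀ i s, ∃ t ≥ s, D i t)
    (hDu : ∀ i s t, s ≤ t → D i s → D i t) (a₀ : A) {E : Set (ℕ → Bool)}
    (hE : ∀ P, IsClosed P → LocPos M P → MeagerIn P E) :
    ∃ t : ℕ → A, a₀ ≤ t 0 ∧ (∀ i, t i ≤ t (i + 1)) ∧ (∀ i, ∃ j, D i (t j)) ∧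
      ∀ n, (∃ i m, ∀ t' ≥ t i, val n t' m = none) ∨ (∃ i, ∀ μ ∈ M, μ (KK val n (t i)) = 0) ∨
        ((∀ m, ∃ i, val n (t i) m ≠ none) ∧
          ∀ x, (∀ i k b, val n (t i) k = some b → x k = b) → x ∉ E) := by
  classical
  choose u hu1 hu2 hu4 hu3 using exists_succ hM hv hD hDu
  have hu : SuccOK M val D u :=
    ⟨fun s m k => (hu1 s m k).1, fun s m k => (hu1 s m k).2.1, fun s m k => (hu1 s m k).2.2,
      hu2, hu4, hu3⟩
  -- the closed sets to be avoided
  have hF : ∀ (n : ℕ) (l : List ℕ), ∃ F : ℕ → Set (ℕ → Bool), Pos M val n (nd u a₀ l) →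
      (∀ j, IsClosed (F j)) ∧ (∀ j O, IsOpen O → (PP u a₀ val n l ∩ O).Nonempty →
        ∃ y ∈ PP u a₀ val n l ∩ O, y ∉ F j) ∧ E ∩ PP u a₀ val n l ⊆ ⋃ j, F j := by
    intro n l
    by_cases hp : Pos M val n (nd u a₀ l)
    · obtain ⟨F, h1⟩ := exists_cover (isClosed_PP u a₀ n l)
        (hE _ (isClosed_PP u a₀ n l) (hu.locPos hv hp))
      exact ⟨F, fun _ => h1⟩
    · exact ⟨fun _ => ∅, fun h => absurd h hp⟩
  choose F hF using hF
  have step : ∀ (l' : List ℕ) (r : ℕ × List ℕ × ℕ), ∃ l'', l' <:+ l'' ∧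
      l'.length < l''.length ∧ (r.1 ≤ r.2.1.length → Pos M val r.1 (nd u a₀ r.2.1) →
        r.2.1 <:+ l' → ∀ x, (∀ k b, val r.1 (nd u a₀ l'') k = some b → x k = b) →
          x ∉ F r.1 r.2.1 r.2.2) := by
    rintro l' ⟨n, l, j⟩
    by_cases h : n ≤ l.length ∧ Pos M val n (nd u a₀ l) ∧ l <:+ l'
    · obtain ⟨hn, hp, hl⟩ := h
      obtain ⟨h1, h2, _⟩ := hF n l hp
      obtain ⟨l'', h3, h4⟩ := hu.avoid hv hn hp (h1 j) (h2 j) hl
      refine ⟨0 :: l'', h3.trans (List.suffix_cons _ _), ?_, fun _ _ _ x hx => h4 x ?_⟩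
      · exact Nat.lt_succ_of_le h3.length_le
      · intro k b hb
        exact hx k b (hv.mono n (hu.nd_le (List.suffix_cons 0 l'')) k b hb)
    · refine ⟨0 :: l', List.suffix_cons _ _, by simp, fun h1 h2 h3 => absurd ⟨h1, h2, h3⟩ h⟩
  choose G hG1 hG2 hG3 using step
  let e : ℕ → ℕ × List ℕ × ℕ := fun k => (Encodable.decode (Nat.unpair k).1).getD (0, [], 0)
  let L : ℕ → List ℕ := fun k => Nat.rec [] (fun k l => G l (e k)) k
  have hL : ∀ k, L (k + 1) = G (L k) (e k) := fun k => rfl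
  have hLs : ∀ i j, i ≤ j → L i <:+ L j := by
    intro i j hij
    induction hij with
    | refl => exact List.suffix_rfl
    | step _ ih => exact ih.trans (hL _ ▸ hG1 _ _)
  have hlen : ∀ k, k ≤ (L k).length := by
    intro k
    induction k with
    | zero => exact Nat.zero_le _
    | succ k ih =>
      rw [hL]
      exact Nat.succ_le_of_lt (ih.trans_lt (hG2 _ _))
  refine ⟨fun k => nd u a₀ (L k), le_rfl, fun i => hu.nd_le (hLs i (i + 1) (by omega)),
    fun i => ⟨i + 1, (hu.dec_nd (Nat.lt_of_lt_of_le (Nat.lt_succ_self i) (hlen (i + 1)))).2 hDu⟩,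
    fun n => ?_⟩
  have hdec := (hu.dec_nd (a₀ := a₀) (Nat.lt_of_lt_of_le (Nat.lt_succ_self n) (hlen (n + 1)))).1
  -- definedness along the sequence
  have hdef : Tot val n (nd u a₀ (L (n + 1))) → ∀ m, ∃ i, n + 1 ≤ i ∧ ∀ j < m,
      val n (nd u a₀ (L i)) j ≠ none := by
    intro htot m
    have hn : n ≤ (L (n + 1)).length := (Nat.le_succ n).trans (hlen (n + 1))
    refine ⟨max (n + 1) m + 1, by omega, fun j hj => ?_⟩
    have h1 : L (n + 1) <:+ L (max (n + 1) m) := hLs (n + 1) _ (le_max_left (n + 1) m)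
    have h2 := hlen (max (n + 1) m)
    have h3 : (L (max (n + 1) m)).length < (L (max (n + 1) m + 1)).length := by
      rw [hL]
      exact hG2 _ _
    obtain ⟨p, hp'⟩ := hLs (max (n + 1) m) (max (n + 1) m + 1) (by omega)
    rcases p.eq_nil_or_concat with rfl | ⟨p, k, rfl⟩
    · rw [← hp'] at h3
      simp at h3
    · have h4 : k :: L (max (n + 1) m) <:+ L (max (n + 1) m + 1) := ⟨p, by rw [← hp']; simp⟩
      exact hv.ne_none (hu.nd_le h4)
        (hu.exists_def hn htot h1 (j := j) (by omega) k)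
  have hdef1 : Tot val n (nd u a₀ (L (n + 1))) → ∀ m, ∃ i, val n (nd u a₀ (L i)) m ≠ none := by
    intro htot m
    obtain ⟨i, _, hi⟩ := hdef htot (m + 1)
    exact ⟨i, hi m (by omega)⟩
  rcases hdec with ⟨m, hm⟩ | h0 | ⟨htot, x₀, hx₀, hpos⟩ | hp
  · exact Or.inl ⟨n + 1, m, hm⟩
  · exact Or.inr (Or.inl ⟨n + 1, fun μ hμ => by_contra fun h1 => h0 ⟨μ, hμ, h1⟩⟩)
  · right
    right
    refine ⟨hdef1 htot, fun x hx hxE => ?_⟩
    have hxK : x ∈ KK val n (nd u a₀ (L (n + 1))) := by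
      intro m
      obtain ⟨i, hi1, hi2⟩ := hdef htot m
      refine ⟨nd u a₀ (L i), hu.nd_le (hLs _ _ hi1), fun k hk => ?_⟩
      obtain ⟨b, hb⟩ := Option.ne_none_iff_exists'.1 (hi2 k hk)
      rw [hb, hx i k b hb]
    have hxx : x = x₀ := hx₀ hxK
    subst hxx
    have h1 : LocPos M {x} := by
      rintro O _ ⟨y, hy1, hy2⟩
      rw [mem_singleton_iff] at hy1
      subst hy1
      rwa [inter_eq_left.2 (singleton_subset_iff.2 hy2)]
    obtain ⟨F, _, h3, h4⟩ := exists_cover isClosed_singleton (hE _ isClosed_singleton h1)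
    obtain ⟨j, hj⟩ := mem_iUnion.1 (h4 ⟨hxE, rfl⟩)
    obtain ⟨y, hy, hyF⟩ := h3 j univ isOpen_univ ⟨x, rfl, mem_univ _⟩
    have hyx : y = x := hy.1
    rw [hyx] at hyF
    exact hyF hj
  · right
    right
    have hn : n ≤ (L (n + 1)).length := (Nat.le_succ n).trans (hlen (n + 1))
    refine ⟨hdef1 hp.1, fun x hx hxE => ?_⟩
    have hxP : x ∈ PP u a₀ val n (L (n + 1)) := by
      intro m
      obtain ⟨i, hi1, hi2⟩ := hdef hp.1 m
      refine ⟨L i, hLs _ _ hi1, fun k hk => ?_⟩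
      obtain ⟨b, hb⟩ := Option.ne_none_iff_exists'.1 (hi2 k hk)
      rw [hb, hx i k b hb]
    obtain ⟨h1, h2, h3⟩ := hF n (L (n + 1)) hp
    obtain ⟨j, hj⟩ := mem_iUnion.1 (h3 ⟨hxE, hxP⟩)
    let c := Encodable.encode (n, L (n + 1), j)
    let i := Nat.pair c (n + 1)
    have hi : n + 1 ≤ i := Nat.right_le_pair _ _
    have hei : e i = (n, L (n + 1), j) := by
      simp only [e, i, Nat.unpair_pair, c, Encodable.encodek, Option.getD_some]
    have h4 := hG3 (L i) (e i)
    rw [hei] at h4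
    refine h4 hn hp (hLs _ _ hi) x (fun k b hb => hx (i + 1) k b ?_) hj
    change val n (nd u a₀ (L (i + 1))) k = some b
    rw [hL, hei]
    exact hb

end Pool.Agent.Helper19TM
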