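import Mathlib
import Pool.Agent.Helper19_TD.TreeM
import Pool.Agent.Helper56_WN.Corollaries

/-!
# Two special cases: the fair coin measure, all atomless probability measures
-/

set_option autoImplicit false

namespace Pool.Agent.Helper19TM

open Pool.Agent.Helper56WN MeasureTheory Set Filter
open scoped Topology ENNReal

theorem coin_singleton (x : ℕ → Bool) : coin {x} = 0 := by
  have h := coin_insert (x := x) (S := ∅) measure_empty
  exact measure_mono_null (by simp) h

theorem nice_coin : Nice {coin} where
  fin := by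
    rintro μ rfl
    infer_instance

theorem noat_coin : ∀ μ ∈ ({coin} : Set (Measure (ℕ → Bool))), ∀ x, μ {x} = 0 := by
  rintro μ rfl x
  exact coin_singleton x

/-- all atomless Borel probability measures -/
def AllM : Set (Measure (ℕ → Bool)) := {μ | IsProbabilityMeasure μ ∧ ∀ x, μ {x} = 0}

theorem nice_all : Nice AllM where
  fin := by
    rintro μ ⟨h, _⟩
    infer_instance

theorem noat_all : ∀ μ ∈ AllM, ∀ x, μ {x} = 0 := fun _ h => h.2

theorem null_of_countable {μ : Measure (ℕ → Bool)} (hμ : ∀ x, μ {x} = 0) {K : Set (ℕ → Bool)}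
    (hK : K.Countable) : μ K = 0 := by
  rw [← biUnion_of_singleton K]
  exact (measure_biUnion_null_iff hK).2 fun x _ => hμ x

theorem polish_of' {α : Type*} [TopologicalSpace α] [SecondCountableTopology α]
    [TopologicalSpace.IsCompletelyMetrizableSpace α] : PolishSpace α := by
  infer_instance

theorem polish_cantor : PolishSpace (ℕ → Bool) := polish_of'

/-- A closed set is null for all atomless probability measures if and only if it is countable. -/
theorem null_all_iff {K : Set (ℕ → Bool)} (hK : IsClosed K) :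
    (∀ μ ∈ AllM, μ K = 0) ↔ K.Countable := by
  constructor
  · intro h
    by_contra hc
    have := polish_cantor
    obtain ⟨f, h1, h2, h3⟩ := hK.exists_nat_bool_injection_of_not_countable hc
    have hm : Measurable f := h2.measurable
    have hprob : IsProbabilityMeasure (coin.map f) :=
      Measure.isProbabilityMeasure_map hm.aemeasurable
    have h4 : coin.map f ∈ AllM := by
      refine ⟨hprob, fun x => ?_⟩
      rw [Measure.map_apply hm (MeasurableSet.singleton x)]
      rcases (f ⁻¹' {x}).eq_empty_or_nonempty with h5 | ⟨y, hy⟩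
      · rw [h5, measure_empty]
      · refine measure_mono_null (fun y' hy' => ?_) (coin_singleton y)
        have h6 : f y' = f y := by
          rw [mem_preimage, mem_singleton_iff] at hy hy'
          rw [hy, hy']
        exact h3 h6
    have h5 := h _ h4
    rw [Measure.map_apply hm hK.measurableSet] at h5
    have h6 : f ⁻¹' K = univ := by
      rw [eq_univ_iff_forall]
      exact fun y => h1 (mem_range_self y)
    rw [h6, measure_univ] at h5
    exact one_ne_zero h5
  · exact fun hc μ hμ => null_of_countable hμ.2 hc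

theorem thin_all_iff {E : Set (ℕ → Bool)} :
    (∃ K : ℕ → Set (ℕ → Bool), (∀ n, IsClosed (K n) ∧ ∀ μ ∈ AllM, μ (K n) = 0) ∧ E ⊆ ⋃ n, K n) ↔
      E.Countable := by
  constructor
  · rintro ⟨K, h1, h2⟩
    exact (countable_iUnion fun n => (null_all_iff (h1 n).1).1 (h1 n).2).mono h2
  · intro hE
    rcases E.eq_empty_or_nonempty with rfl | hne
    · exact ⟨fun _ => ∅, fun _ => ⟨isClosed_empty, fun μ _ => measure_empty⟩, empty_subset _⟩
    · obtain ⟨f, hf⟩ := hE.exists_eq_range hne
      refine ⟨fun n => {f n}, fun n => ⟨isClosed_singleton, fun μ hμ => hμ.2 _⟩, ?_⟩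
      rw [hf]
      rintro _ ⟨n, rfl⟩
      exact mem_iUnion.2 ⟨n, rfl⟩

/-- A closed set all of whose nonempty open parts are positive for some atomless measure is
perfect. -/
theorem perfect_of_locPos {M : Set (Measure (ℕ → Bool))} (hM : ∀ μ ∈ M, ∀ x, μ {x} = 0)
    {P : Set (ℕ → Bool)}
    (hP : IsClosed P) (h : LocPos M P) : Perfect P := by
  refine ⟨hP, fun x hx => ?_⟩
  rw [accPt_iff_nhds]
  intro U hU
  obtain ⟨O, hOU, hO, hxO⟩ := mem_nhds_iff.1 hU
  obtain ⟨y, hy, z, hz, hyz⟩ := exists_ne_of_pos hM (h O hO ⟨x, hx, hxO⟩)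
  by_cases hyx : y = x
  · refine ⟨z, ⟨hOU hz.2, hz.1⟩, ?_⟩
    rintro rfl
    exact hyz hyx
  · exact ⟨y, ⟨hOU hy.2, hy.1⟩, hyx⟩

end Pool.Agent.Helper19TM
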